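import Pool.Agent.H439.TA.Grow
import Pool.Agent.H439.TA.EC

/-!
# The distribution of the values of `L(E, s)` near the line `Re s = 3/2`, for all number fields

Let `E` be an elliptic curve over a number field `K` of degree `n`.  For a general field `K` nothing is
known about `L(E, s)` outside the half-plane `Re s > 3/2` of absolute convergence of the Euler product.
The Hasse-Weil conjecture gives the entire continuation, without zeros on the line `Re s = 3/2`, and
(with the theory of Bohr and Jessen) the distribution of the values on this line.  In the half-plane the product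
itself gives only `|log |L(E, 3/2 + ε + it)|| ≤ 2 n log(1/ε) + O(n)`.

The theorem determines the distribution of the values `L(E, 3/2 + ε + it)` for `t` in arbitrary
intervals `[U, U + H]` with `|U| ≤ H^A`, for all distances `ε ≥ exp(-H^κ)` from the line, `κ < 1/8`, without any
continuation, for all elliptic curves over all number fields.  The limit for `H → ∞` and
`ε → 0` is the distribution `ν` on the line `Re s = 3/2` of the random Euler product, in which
the `p^{-it}` are replaced by independent random variables `X_p` with the uniform distribution on the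
unit circle.

* (1), (4): for every bounded continuous function `f` the mean value of `f(L(E, 3/2 + ε + it))` over
  `[U, U + H]` and the expected value of `f` at the random Euler product at `3/2 + ε` differ by `o(1)`,
  uniformly in `|U| ≤ H^A`, `exp(-H^κ) ≤ ε ≤ 1/2`; and the latter tends to `∫ f dν` as `ε → 0`.
* (2), (3): `ν` has double exponentially decaying tails, and so has the distribution of
  `L(E, 3/2 + ε + it)` on `[U, U + H]`: the measure of the `t` with `|L| > (C' log y)^{2n}` or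
  `|L| < (C' log y)^{-2n}` is at most `14 exp(-y/4) H`, for `3 ≤ y ≤ c log H / log log H`, uniformly in `E` and `K`.
* (3), (5): outside of a set of measure `H exp(-c log H / log log H)` all moments of `L` and of `1/L` are
  bounded, uniformly in `E`, for fixed `n`, and the mean values of all functions `f`, continuous on
  `ℂ ∖ {0}` and of at most polynomial growth at `0` and `∞`, tend to `∫ f dν`.

So at the distance `exp(-H^κ)` from the line `L(E, s)` takes for almost all `t` the values which it must have if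
it can be continued and has neither zeros nor poles near the line.

The theorem is stated for arbitrary Euler products with bounded degrees and weights over
number fields.  By (0) this includes (by the theorem of Hasse) the Euler product of `E` over the primes `v` which do
not divide `6 Δ`, where `Δ` is the discriminant of an integral Weierstrass equation.
-/

set_option autoImplicit false

namespace Pool.Agent.Results.MP_0d9be2_nt.BohrJessen

open NumberField IsDedekindDomain Polynomial MeasureTheory Filter Topology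

section
variable {K : Type} [Field K] [NumberField K]

/-- The Euler product `∏_v P_v(g(q_v) q_v^{-s})⁻¹` over the primes `v` of `K`, where `q_v` is the norm of
`v` and `g` a function on the positive integers. -/
noncomputable def L (P : HeightOneSpectrum (𝓞 K) → ℂ[X]) (g : ℕ → ℂ) (s : ℂ) : ℂ :=
  ∏' v : HeightOneSpectrum (𝓞 K), ((P v).eval
    (g (Ideal.absNorm v.asIdeal) * ((Ideal.absNorm v.asIdeal : ℕ) : ℂ) ^ (-s)))⁻¹

/-- The polynomials `P_v` have constant term `1`, degree at most `N`, and the inverses of their zeros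
have absolute value at most `q_v^{i/2}`. -/
structure HasWeights (P : HeightOneSpectrum (𝓞 K) → ℂ[X]) (N i : ℕ) : Prop where
  coeff_zero : ∀ v, (P v).coeff 0 = 1
  natDegree_le : ∀ v, (P v).natDegree ≤ N
  le_norm : ∀ v, ∀ z : ℂ, (P v).IsRoot z →
    ((Ideal.absNorm v.asIdeal : ℕ) : ℝ) ^ (-((i : ℝ) / 2)) ≤ ‖z‖

/-- `a_v = q_v + 1 - #E(k_v)` for a Weierstrass equation with integral coefficients (there is one
point at infinity). -/
noncomputable def trace (W : WeierstrassCurve (𝓞 K)) (v : HeightOneSpectrum (𝓞 K)) : ℤ :=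
  (Ideal.absNorm v.asIdeal : ℤ) - Nat.card {p : (𝓞 K ⧸ v.asIdeal) × (𝓞 K ⧸ v.asIdeal) //
    (W.map (Ideal.Quotient.mk v.asIdeal)).toAffine.Equation p.1 p.2}

open Classical in
/-- The Euler factors `1 - a_v T + q_v T²` of the elliptic curve for the primes `v` not dividing `6 Δ`;
for the others we put `1`. -/
noncomputable def factor (W : WeierstrassCurve (𝓞 K)) (v : HeightOneSpectrum (𝓞 K)) : ℂ[X] :=
  if 6 * W.Δ ∈ v.asIdeal then 1 else
    1 - C ((trace W v : ℤ) : ℂ) * X + C ((Ideal.absNorm v.asIdeal : ℕ) : ℂ) * X ^ 2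

/-- `(1/H) ∫ f(L(P, s + it)) dt` over `[U, U + H]` without the set `E`. -/
noncomputable def mean (f : ℂ → ℝ) (P : HeightOneSpectrum (𝓞 K) → ℂ[X]) (s : ℂ) (U H : ℝ)
    (E : Set ℝ) : ℝ :=
  H⁻¹ * ∫ t in Set.Icc U (U + H) \ E, f (L P (fun _ => 1) (s + t * Complex.I))

end

/-- The sequences `ω = (ω_p)` of points of the unit interval, indexed by the primes, with the product of
the uniform measures: the `ω_p` are independent and uniformly distributed. -/
noncomputable def unif : Measure (Nat.Primes → unitInterval) :=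
  Measure.infinitePi fun _ => (volume : Measure unitInterval)

/-- `X_p = exp(2πi ω_p)`, uniformly distributed on the unit circle. -/
noncomputable def atPrime (ω : Nat.Primes → unitInterval) (p : ℕ) : ℂ :=
  if h : p.Prime then Complex.exp (2 * Real.pi * Complex.I * ((ω ⟨p, h⟩ : ℝ) : ℂ)) else 1

/-- The random multiplicative function `∏_p X_p^{v_p(n)}`. -/
noncomputable def random (ω : Nat.Primes → unitInterval) (n : ℕ) : ℂ :=
  n.factorization.prod fun p k => atPrime ω p ^ k

/-- The expected value of `f` at the random Euler product. -/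
noncomputable def expect {K : Type} [Field K] [NumberField K] (f : ℂ → ℝ)
    (P : HeightOneSpectrum (𝓞 K) → ℂ[X]) (s : ℂ) : ℝ := ∫ ω, f (L P (random ω) s) ∂unif

lemma mean_eq {K : Type} [Field K] [NumberField K] (P : HeightOneSpectrum (𝓞 K) → ℂ[X]) (i : ℕ)
    (f : ℂ → ℝ) (U ε : ℝ) {H : ℝ} (hH : 0 < H) {E : Set ℝ} (hE : MeasurableSet E) :
    mean f P (1 + (i : ℂ) / 2 + ε) U H E = ∫ t in Eᶜ, f (Pool.Agent.H439.LL.LG P
      (Pool.Agent.H439.LS.ph (-t)) (1 + ((i : ℝ) : ℂ) / 2 + (ε : ℂ)))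
        ∂(Pool.Agent.H439.TA.tau U H) := by
  have key : ∀ t : ℝ, L P (fun _ => 1) (1 + (i : ℂ) / 2 + ε + t * Complex.I) =
      Pool.Agent.H439.LL.LG P (Pool.Agent.H439.LS.ph (-t))
        (1 + ((i : ℝ) : ℂ) / 2 + (ε : ℂ)) := by
    intro t
    unfold L Pool.Agent.H439.LL.LG
    apply tprod_congr
    intro v
    congr 2
    have hpos : 0 < Pool.Agent.TH339.MP.nm v := by
      have := Pool.Agent.H439.LL.nm_ge_two v
      have h0 : (0 : ℝ) < (Pool.Agent.TH339.MP.nm v : ℝ) := by linarith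
      exact_mod_cast h0
    have hne : ((Pool.Agent.TH339.MP.nm v : ℕ) : ℂ) ≠ 0 := by exact_mod_cast hpos.ne'
    change 1 * ((Pool.Agent.TH339.MP.nm v : ℕ) : ℂ) ^ (-(1 + (i : ℂ) / 2 + ε + t * Complex.I)) =
      Pool.Agent.H439.LS.ph (-t) (Pool.Agent.TH339.MP.nm v) *
        ((Pool.Agent.TH339.MP.nm v : ℕ) : ℂ) ^ (-(1 + ((i : ℝ) : ℂ) / 2 + (ε : ℂ)))
    unfold Pool.Agent.H439.LS.ph
    rw [one_mul, ← Complex.cpow_add _ _ hne]
    congr 1
    push_cast
    ring
  unfold mean Pool.Agent.H439.TA.tau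
  simp_rw [key]
  rw [Measure.restrict_smul, Measure.restrict_restrict hE.compl, integral_smul_measure,
    ENNReal.toReal_inv, ENNReal.toReal_ofReal hH.le, smul_eq_mul, Set.sdiff_eq, Set.inter_comm]

/-- **The distribution of the values of `L(E, s)` near the edge.** -/
theorem result :
    -- (0) elliptic curves
    (∀ (K : Type) [Field K] [NumberField K] (W : WeierstrassCurve (𝓞 K)),
      HasWeights (factor W) 2 1) ∧
    ∃ (C : ℝ) (D : ℝ → ℝ), ∀ A κ : ℝ, 1 ≤ A → 0 < κ → κ < 1 / 8 → ∃ c H₀ : ℝ, 0 < c ∧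
    ∀ (K : Type) [Field K] [NumberField K] (N i : ℕ) (P : HeightOneSpectrum (𝓞 K) → ℂ[X]),
      HasWeights P N i →
      ∃ (ν : Measure ℂ) (E : ℝ → ℝ → ℝ → Set ℝ), IsProbabilityMeasure ν ∧ ν {0} = 0 ∧
      -- (1) `ν` is the limiting distribution of the random Euler product
      (∀ f : BoundedContinuousFunction ℂ ℝ,
        Tendsto (fun ε : ℝ => expect f P (1 + (i : ℂ) / 2 + ε)) (𝓝[>] 0) (𝓝 (∫ z, f z ∂ν))) ∧
      -- (2) the tails of `ν`
      (∀ y : ℝ, 3 ≤ y → ν.real {z | (Module.finrank ℚ K : ℝ) * N * (Real.log (Real.log y) + C) <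
        |Real.log ‖z‖|} ≤ 14 * Real.exp (-(y / 4))) ∧
      -- (3) large deviations and moments
      (∀ H : ℝ, H₀ ≤ H → ∀ U : ℝ, |U| ≤ H ^ A → ∀ ε : ℝ, Real.exp (-H ^ κ) ≤ ε → ε ≤ 1 / 2 →
        (∀ y : ℝ, 3 ≤ y → y ≤ c * (Real.log H / Real.log (Real.log H)) →
          volume.real {t | t ∈ Set.Icc U (U + H) ∧
            (Module.finrank ℚ K : ℝ) * N * (Real.log (Real.log y) + C) <
              |Real.log ‖L P (fun _ => 1) (1 + (i : ℂ) / 2 + ε + t * Complex.I)‖|} ≤
            14 * Real.exp (-(y / 4)) * H) ∧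
        MeasurableSet (E H U ε) ∧ E H U ε ⊆ Set.Icc U (U + H) ∧
        volume.real (E H U ε) ≤ Real.exp (-(c * (Real.log H / Real.log (Real.log H)))) * H ∧
        ∀ r : ℝ, 0 ≤ r →
          mean (fun z => Real.exp (r * |Real.log ‖z‖|)) P (1 + (i : ℂ) / 2 + ε) U H (E H U ε) ≤
            D (r * ((Module.finrank ℚ K : ℝ) * N))) ∧
      -- (4) bounded functions
      (∀ (f : BoundedContinuousFunction ℂ ℝ) (η : ℝ), 0 < η → ∃ H₁ : ℝ,
        ∀ H : ℝ, H₁ ≤ H → ∀ U : ℝ, |U| ≤ H ^ A → ∀ ε : ℝ, Real.exp (-H ^ κ) ≤ ε → ε ≤ 1 / 2 →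
          |mean f P (1 + (i : ℂ) / 2 + ε) U H ∅ - expect f P (1 + (i : ℂ) / 2 + ε)| ≤ η) ∧
      -- (5) functions of polynomial growth at `0` and `∞`
      (∀ (f : ℂ → ℝ) (B r : ℝ), ContinuousOn f {0}ᶜ →
        (∀ z ≠ 0, |f z| ≤ B * Real.exp (r * |Real.log ‖z‖|)) →
        Integrable f ν ∧ ∀ η : ℝ, 0 < η → ∃ H₁ ε₁ : ℝ, 0 < ε₁ ∧
          ∀ H : ℝ, H₁ ≤ H → ∀ U : ℝ, |U| ≤ H ^ A → ∀ ε : ℝ, Real.exp (-H ^ κ) ≤ ε → ε ≤ ε₁ →
            |mean f P (1 + (i : ℂ) / 2 + ε) U H (E H U ε) - ∫ z, f z ∂ν| ≤ η) := by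
  open Pool.Agent.H439.LL Pool.Agent.H439.QD Pool.Agent.H439.TA in
  classical
  refine ⟨fun K _ _ W => ⟨factorv_coeff W, factorv_deg W, factorv_root W⟩, ?_⟩
  obtain ⟨C, hC3, hC⟩ := exists_CE
  refine ⟨C, fun u => DD C u * 3, fun A κ hA hκ hκ8 => ?_⟩
  obtain ⟨c, H₀, hc, hdev⟩ := dev_all_t hC hA hκ hκ8
  refine ⟨c, max H₀ 1, hc, fun K _ _ N i P hP => ?_⟩
  have hW : HW P N (i : ℝ) := ⟨hP.coeff_zero, hP.natDegree_le, hP.le_norm⟩
  obtain ⟨ν, hν0, hν⟩ := exists_limit_x hW
  obtain ⟨hν1, hν2⟩ := nu_bounds hC hW ν hν0 hν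
  -- the exceptional sets
  have hex : ∀ H U ε : ℝ, ∃ E : Set ℝ, E ⊆ Set.Icc U (U + H) ∧ MeasurableSet E ∧ (max H₀ 1 ≤ H →
      |U| ≤ H ^ A → Real.exp (-H ^ κ) ≤ ε → ε ≤ 1 / 2 →
        (tau U H).real E ≤ Real.exp (-(c * (Real.log H / Real.log (Real.log H)))) ∧
          ∀ r : ℝ, 0 ≤ r → ∫⁻ t in Eᶜ, ENNReal.ofReal
            (Real.exp (r * |Real.log ‖LG P (Pool.Agent.H439.LS.ph (-t))
              (1 + ((i : ℝ) : ℂ) / 2 + (ε : ℂ))‖|)) ∂(tau U H) ≤
            ENNReal.ofReal (DD C (r * ((Module.finrank ℚ K : ℝ) * N)) * 3)) := by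
    intro H U ε
    by_cases h : max H₀ 1 ≤ H ∧ |U| ≤ H ^ A ∧ Real.exp (-H ^ κ) ≤ ε ∧ ε ≤ 1 / 2
    · obtain ⟨h1, h2, h3, h4⟩ := h
      have hH0 : 0 < H := lt_of_lt_of_le one_pos ((le_max_right _ _).trans h1)
      obtain ⟨-, E, e1, e2, e3⟩ := hdev K N i P hW H ((le_max_left _ _).trans h1) U h2 ε h3 h4
      have hpr := prob_tau U hH0
      refine ⟨E ∩ Set.Icc U (U + H), Set.inter_subset_right, e1.inter measurableSet_Icc,
        fun _ _ _ _ => ⟨(measureReal_mono Set.inter_subset_left).trans e2, fun r hr => ?_⟩⟩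
      refine le_trans (le_of_eq ?_) (e3 r hr)
      have h5 : (tau U H).restrict (E ∩ Set.Icc U (U + H))ᶜ = (tau U H).restrict Eᶜ := by
        unfold tau
        rw [Measure.restrict_smul, Measure.restrict_smul,
          Measure.restrict_restrict (e1.inter measurableSet_Icc).compl,
          Measure.restrict_restrict e1.compl]
        congr 2
        ext t
        simp only [Set.mem_inter_iff, Set.mem_compl_iff, not_and]
        constructor
        · rintro ⟨h6, h7⟩
          exact ⟨fun h8 => h6 h8 h7, h7⟩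
        · rintro ⟨h6, h7⟩
          exact ⟨fun h8 => absurd h8 h6, h7⟩
      rw [h5]
    · exact ⟨∅, Set.empty_subset _, MeasurableSet.empty, fun h1 h2 h3 h4 =>
        absurd ⟨h1, h2, h3, h4⟩ h⟩
  choose E hE1 hE2 hE3 using hex
  refine ⟨ν, E, inferInstance, hν0, ?_, hν1, ?_, ?_, ?_⟩
  · -- (1)
    intro f
    rw [Metric.tendsto_nhds]
    intro η hη
    obtain ⟨ε₀, hε₀, h2⟩ := hν f f.continuous ‖f‖ (fun z => by
      rw [← Real.norm_eq_abs]; exact f.norm_coe_le_norm z) (η / 2) (half_pos hη)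
    filter_upwards [Ioc_mem_nhdsGT hε₀] with ε hε
    rw [Real.dist_eq]
    have h3 := h2 _ pmu _ model ε hε.1 hε.2
    have h4 : expect f P (1 + (i : ℂ) / 2 + ε) = ∫ ω, f (LG P (gX 1 (fun n ω => rmf ω n) ω)
        (1 + ((i : ℝ) : ℂ) / 2 + (ε : ℂ))) ∂pmu := by
      unfold expect
      change ∫ ω, f (L P (random ω) (1 + (i : ℂ) / 2 + ε)) ∂pmu = _
      congr 1
      funext ω
      have e : (1 + (i : ℂ) / 2 + (ε : ℂ)) = 1 + ((i : ℝ) : ℂ) / 2 + (ε : ℂ) := by push_cast; rfl
      rw [e]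
      have e2 : gX 1 (fun n ω => rmf ω n) ω = random ω := by
        funext n
        unfold gX
        rw [if_pos (Nat.coprime_one_right n)]
        rfl
      rw [e2]
      rfl
    rw [h4]
    linarith
  · -- (3)
    intro H hH U hU ε hε0 hε1
    have hH0 : 0 < H := lt_of_lt_of_le one_pos ((le_max_right _ _).trans hH)
    have hpr := prob_tau U hH0
    have hεpos : 0 < ε := lt_of_lt_of_le (Real.exp_pos _) hε0
    obtain ⟨h1, -⟩ := hdev K N i P hW H ((le_max_left _ _).trans hH) U hU ε hε0 hε1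
    obtain ⟨h2, h3⟩ := hE3 H U ε hH hU hε0 hε1
    have key : ∀ t : ℝ, L P (fun _ => 1) (1 + (i : ℂ) / 2 + ε + t * Complex.I) =
        LG P (Pool.Agent.H439.LS.ph (-t)) (1 + ((i : ℝ) : ℂ) / 2 + (ε : ℂ)) := by
      intro t
      unfold L LG
      apply tprod_congr
      intro v
      congr 2
      have hpos : 0 < Pool.Agent.TH339.MP.nm v := by
        have := nm_ge_two v
        have h0 : (0 : ℝ) < (Pool.Agent.TH339.MP.nm v : ℝ) := by linarith
        exact_mod_cast h0
      have hne : ((Pool.Agent.TH339.MP.nm v : ℕ) : ℂ) ≠ 0 := by exact_mod_cast hpos.ne'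
      change 1 * ((Pool.Agent.TH339.MP.nm v : ℕ) : ℂ) ^ (-(1 + (i : ℂ) / 2 + ε + t * Complex.I)) =
        Pool.Agent.H439.LS.ph (-t) (Pool.Agent.TH339.MP.nm v) *
          ((Pool.Agent.TH339.MP.nm v : ℕ) : ℂ) ^ (-(1 + ((i : ℝ) : ℂ) / 2 + (ε : ℂ)))
      unfold Pool.Agent.H439.LS.ph
      rw [one_mul, ← Complex.cpow_add _ _ hne]
      congr 1
      push_cast
      ring
    refine ⟨fun y hy hyc => ?_, hE2 H U ε, hE1 H U ε, ?_, fun r hr => ?_⟩
    · have h4 := h1 y hy hyc
      rw [tau_real U hH0, inv_mul_le_iff₀ hH0] at h4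
      have h5 : {t | t ∈ Set.Icc U (U + H) ∧
            (Module.finrank ℚ K : ℝ) * N * (Real.log (Real.log y) + C) <
              |Real.log ‖L P (fun _ => 1) (1 + (i : ℂ) / 2 + ε + t * Complex.I)‖|} =
          {t | (Module.finrank ℚ K : ℝ) * N * (Real.log (Real.log y) + C) <
            |Real.log ‖LG P (Pool.Agent.H439.LS.ph (-t)) (1 + ((i : ℝ) : ℂ) / 2 + (ε : ℂ))‖|} ∩
            Set.Icc U (U + H) := by
        ext t
        rw [Set.mem_inter_iff, Set.mem_ofPred_eq, Set.mem_ofPred_eq, key, and_comm]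
      rw [h5, mul_comm _ H]
      exact h4
    · rw [tau_real U hH0, inv_mul_le_iff₀ hH0, Set.inter_eq_left.2 (hE1 H U ε)] at h2
      rw [mul_comm _ H]
      exact h2
    · rw [mean_eq P i _ U ε hH0 (hE2 H U ε)]
      rw [integral_eq_lintegral_of_nonneg_ae (Eventually.of_forall fun _ => (Real.exp_pos _).le)]
      · refine ENNReal.toReal_le_of_le_ofReal ?_ (h3 r hr)
        unfold DD
        positivity
      · exact (Real.measurable_exp.comp (((Real.measurable_log.comp
          (measurable_LGt hW hεpos hε1).norm).abs).const_mul r)).aestronglyMeasurable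
  · -- (4)
    intro f η hη
    obtain ⟨H₁, hH₁⟩ := eventually_atTop.1 ((limit_law_t hW hA hκ hκ8 f.continuous (D := ‖f‖)
      (fun z => by rw [← Real.norm_eq_abs]; exact f.norm_coe_le_norm z) hη).and
      (eventually_gt_atTop 0))
    refine ⟨H₁, fun H hH U hU ε hε0 hε1 => ?_⟩
    obtain ⟨h1, hH0⟩ := hH₁ H hH
    have h3 := h1 U hU ε hε0 hε1 _ pmu _ model
    have h4 : expect f P (1 + (i : ℂ) / 2 + ε) = ∫ ω, f (LG P (gX 1 (fun n ω => rmf ω n) ω)
        (1 + ((i : ℝ) : ℂ) / 2 + (ε : ℂ))) ∂pmu := by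
      unfold expect
      change ∫ ω, f (L P (random ω) (1 + (i : ℂ) / 2 + ε)) ∂pmu = _
      congr 1
      funext ω
      have e : (1 + (i : ℂ) / 2 + (ε : ℂ)) = 1 + ((i : ℝ) : ℂ) / 2 + (ε : ℂ) := by push_cast; rfl
      rw [e]
      have e2 : gX 1 (fun n ω => rmf ω n) ω = random ω := by
        funext n
        unfold gX
        rw [if_pos (Nat.coprime_one_right n)]
        rfl
      rw [e2]
      rfl
    rw [mean_eq P i f U ε hH0 MeasurableSet.empty, h4, Set.compl_empty, Measure.restrict_univ]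
    exact h3
  · -- (5)
    intro f B r hf hfB
    have hfB' : ∀ z ≠ 0, |f z| ≤ |B| * Real.exp (|r| * |Real.log ‖z‖|) := by
      intro z hz
      refine (hfB z hz).trans ?_
      apply mul_le_mul (le_abs_self B) _ (Real.exp_pos _).le (abs_nonneg _)
      exact Real.exp_le_exp.2 (mul_le_mul_of_nonneg_right (le_abs_self r) (abs_nonneg _))
    obtain ⟨g1, g2⟩ := grow_t (M := 0) (Q' := 0) hW hA hκ hκ8 hc (H₀ := max H₀ 1)
      (Qf := fun r => DD C (r * ((Module.finrank ℚ K : ℝ) * N)) * 3)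
      (fun r _ => by unfold DD; positivity) ν hν0 hν hν2 E
      (fun H hH U hU ε hε0 hε1 => ⟨hE2 H U ε, hE3 H U ε hH hU hε0 hε1⟩) hf (abs_nonneg B)
      (abs_nonneg r) hfB'
    refine ⟨g1, fun η hη => ?_⟩
    obtain ⟨H₁, ε₁, hε₁, g3⟩ := g2 η hη
    refine ⟨max H₁ 1, ε₁, hε₁, fun H hH U hU ε hε0 hε1 => ?_⟩
    have hH0 : 0 < H := lt_of_lt_of_le one_pos ((le_max_right _ _).trans hH)
    rw [mean_eq P i f U ε hH0 (hE2 H U ε)]
    exact g3 H ((le_max_left _ _).trans hH) U hU ε hε0 hε1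

end Pool.Agent.Results.MP_0d9be2_nt.BohrJessen
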