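import Pool.Agent.H453.MC.Shape

/-!
# The Hasse-Weil conjecture for elliptic curves: the structure of a minimal counterexample

Let `K/k` be a finite extension of number fields and `E` an elliptic curve over `k`.  Suppose that the
`L`-series of all quadratic twists of `E` over all extensions `Z/k` of degree less than `[K : k]` have
meromorphic continuations, but `L(E/K, s)` has none.  (This is the case for a counterexample `(K, E)` to the
conjecture with `[K : ℚ]` minimal, and all subfields `k` of `K` over which `E` is defined.)  The theorem says
that then `K/k` has a very special structure.  For every field `F` with `k ⊆ F ⊊ K`, with the normal closure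
`M` of `K/F`, `G = Gal(M/F)` and `H = Gal(M/K)`:

* `G` has no nontrivial normal 2-subgroup; for example `[K : F] ≠ 2`, and `[K : F] ≠ 4`, as the Galois groups
  of the quartic extensions have nontrivial normal 2-subgroups;
* if `A` is a nontrivial elementary abelian normal `p`-subgroup of `G`, and `[A : A ∩ H] = p ^ d`, then some
  subgroup of index `p` of `A` that contains `A ∩ H` has at least `p ^ (d - 1)` conjugates under `H`;
* if there is no field between `F` and `K` and `G` is solvable, then `[K : F]` is a power of an odd prime;

and `Aut(K/k)` has odd order and all its subgroups of order `p q`, `p` and `q` primes, are cyclic.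

More precisely, if one of these conditions does not hold, then `L(E/K, s)` is, for all `E/k`, up to finitely
many Euler factors a product of integral powers of functions `L(E_D/Z, s)`, with quadratic twists `E_D` of
`E`, `D ∈ Z`, over extensions `Z/k` of degree less than `[K : k]`.

The proof.  (1) If the permutation character of `G` on `G/H` is an integral combination of the permutation
characters on `G/S` for subgroups `S` with `[G : S] < [G : H]`, and for subgroups `S` of index two in such
groups, then `L(E/K, s)` is a product as above, since `L(E/Z(√D), s) = L(E/Z, s) L(E_D/Z, s)` up to finitely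
many Euler factors.  (2) Let `A` be an elementary abelian normal `p`-subgroup, and let first `G = A H`.  Then
`G/H` is an affine space `V` over the field with `p` elements on which `G` acts by affine maps.  The number
of fixed points of an affine map of `V` is the difference of the numbers of fixed points on the projective
spaces of the affine functions and of the linear functions on `V` (`Pool.Agent.H453.MC.affine_count`).  The
orbits of `G` on the second space have less than `[G : H]` elements.  Those on the first, apart from a fixed
point, have `p` times as many elements as the corresponding orbit on the second; for `p = 2` their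
stabilizers have index two in subgroups of index less than `[G : H]`.  (3) For a Frobenius group `N ⋊ P` the
regular character is the sum of the permutation character on the cosets of `N` and of `|P|` times the
difference of the one on the cosets of `P` and the trivial one.
-/

set_option autoImplicit false

namespace Pool.Agent.Results.MP_0d9be2_nt.MinimalCounterexample

open NumberField IsDedekindDomain
open Pool.Agent.R433.MD (Ext LL)
open Pool.Agent.N19.BR.Def

/-- The quadratic twist `y² = x³ - 27 d² c₄ x - 54 d³ c₆` of `E` by `d`, where `c₄`, `c₆` are the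
invariants of `E`. -/
def QuadraticTwist {F : Type} [Field F] (E : WeierstrassCurve F) (d : F) : WeierstrassCurve F where
  a₁ := 0
  a₂ := 0
  a₃ := 0
  a₄ := -27 * d ^ 2 * E.c₄
  a₆ := -54 * d ^ 3 * E.c₆

/-- The `L`-series of an elliptic curve over `F`, the product of the Euler factors of the minimal models
`V`. -/
noncomputable def LFunction {F : Type} [Field F] [NumberField F]
    (V : HeightOneSpectrum (𝓞 F) → WeierstrassCurve (𝓞 F)) (s : ℂ) : ℂ := ∏' v, factor V s v

/-- `L(E/K, s)` has a meromorphic continuation to `U`. -/
def Continuation (U : Set ℂ) (K : Type) [Field K] [NumberField K] (E : WeierstrassCurve K) : Prop :=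
  ∃ Λ : ℂ → ℂ, Continues U 1 E Λ

/-- There are finitely many extensions `Z i` of `k` of degree less than `[K : k]`, nonzero integers `D i`
of `Z i` and integers `e i` such that for all elliptic curves `E` over `k`
`L(E/K, s) = ρ(s) ∏ L(E_{D i}/Z i, s) ^ (e i)` for `Re s > 3/2`, where `E_D` is the quadratic twist and `ρ`
is meromorphic on `ℂ` and different from zero for `Re s > 3/2`. -/
def Reducible (k : Type) [Field k] [NumberField k] (K : Type) [Field K] [NumberField K]
    [Algebra k K] : Prop :=
  ∃ (ι : Type) (_ : Fintype ι) (Z : ι → Ext k) (D : ∀ i, 𝓞 (Z i).F) (e : ι → ℤ),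
    (∀ i, D i ≠ 0 ∧ Module.finrank k (Z i).F < Module.finrank k K) ∧
    ∀ (E : WeierstrassCurve k) [E.IsElliptic]
      (V : HeightOneSpectrum (𝓞 K) → WeierstrassCurve (𝓞 K))
      (_ : MinimalModels (E.map (algebraMap k K)) V)
      (W : ∀ i, HeightOneSpectrum (𝓞 (Z i).F) → WeierstrassCurve (𝓞 (Z i).F))
      (_ : ∀ i, MinimalModels (QuadraticTwist (E.map (algebraMap k (Z i).F)) (D i : (Z i).F)) (W i)),
      ∃ ρ : ℂ → ℂ, MeromorphicOn ρ Set.univ ∧ ∀ s : ℂ, 3 / 2 < s.re → ρ s ≠ 0 ∧
        LFunction V s = ρ s * ∏ i, LFunction (W i) s ^ e i

section groups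
variable {G : Type} [Group G]

/-- The number of the cosets of `H` fixed by `g`: the permutation character of `G` on `G / H`. -/
noncomputable def fixedCosets (H : Subgroup G) (g : G) : ℤ :=
  (Nat.card {c : G ⧸ H // g • c = c} : ℤ)

/-- `S` has index less than `n`, or it has index two in a subgroup of index less than `n`. -/
def SmallIndex (n : ℕ) (S : Subgroup G) : Prop :=
  S.index < n ∨ ∃ S₀ : Subgroup G, S ≤ S₀ ∧ S.relIndex S₀ = 2 ∧ S₀.index < n

/-- The permutation character on `G / H` is not an integral combination of the permutation characters on
the sets `G / S i` with subgroups `S i` of index less than `[G : H]`, or of index two in a subgroup of index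
less than `[G : H]`. -/
def NoRelation (H : Subgroup G) : Prop :=
  ∀ (m : ℕ) (S : Fin m → Subgroup G) (c : Fin m → ℤ), (∀ i, SmallIndex H.index (S i)) →
    ∃ g : G, fixedCosets H g ≠ ∑ i, c i * fixedCosets (S i) g

/-- If `A` is a normal subgroup, elementary abelian of exponent `p`, and not contained in `H`, then `p ≠ 2`,
and there is a subgroup `B` of index `p` in `A` that contains `A ∩ H` such that
`[A : A ∩ H] ≤ p [A H : N(B)]`, where `N(B)` is the normalizer of `B` in `A H` (the index of `N(B)` is the
number of the conjugates of `B` under `A H`, or under `H`, since `A` is abelian). -/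
def LargeOrbits (H : Subgroup G) : Prop :=
  ∀ (p : ℕ) (A : Subgroup G), p.Prime → A.Normal → (∀ a ∈ A, ∀ b ∈ A, a * b = b * a) →
    (∀ a ∈ A, a ^ p = 1) → ¬ A ≤ H →
    p ≠ 2 ∧ ∃ B ≤ A, A ⊓ H ≤ B ∧ B.relIndex A = p ∧
      H.relIndex A ≤ p * (Subgroup.normalizer (B : Set G)).relIndex (A ⊔ H)

end groups

section fields
variable {k : Type} [Field k] {K : Type} [Field K] [Algebra k K]

/-- The automorphisms of `M/F` that fix `K`. -/
def FixK (F : IntermediateField k K) (M : Type) [Field M] [Algebra K M] : Subgroup Gal(M/F) :=
  (IsScalarTower.toAlgHom F K M).fieldRange.fixingSubgroup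

end fields

/-- The structure of a minimal counterexample `K/k`.

(1) For every field `F` between `k` and `K` and every Galois extension `M/F` that contains `K`, the
permutation character of `Gal(M/F)` on the cosets of `Gal(M/K)` is no combination of permutation characters
of smaller degree (`NoRelation`), and `LargeOrbits` holds.

(2) For every field `F` between `k` and `K`, and the normal closure `M` of `K/F`, the group `Gal(M/F)` has
no nontrivial normal 2-subgroup.  If it is solvable, `F ≠ K`, and there is no field strictly between `F` and
`K`, then `[K : F]` is a power of an odd prime.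

(3) The group `Aut(K/k)` has odd order, and all its subgroups whose order is the product of two (equal or
different) primes are cyclic. -/
def Shape (k : Type) [Field k] (K : Type) [Field K] [Algebra k K] : Prop :=
  (∀ (F : IntermediateField k K) (M : Type) [Field M] [NumberField M] [Algebra K M] [IsGalois F M],
    NoRelation (FixK F M) ∧ LargeOrbits (FixK F M)) ∧
  (∀ (F : IntermediateField k K) (M : Type) [Field M] [NumberField M] [Algebra K M]
    [IsNormalClosure F K M],
    (∀ T : Subgroup Gal(M/F), T.Normal → IsPGroup 2 T → T = ⊥) ∧
    (Group.IsSolvable Gal(M/F) → Module.finrank F K ≠ 1 →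
      (∀ L : IntermediateField F K, L = ⊥ ∨ L = ⊤) →
      ∃ p d : ℕ, p.Prime ∧ p ≠ 2 ∧ d ≠ 0 ∧ Module.finrank F K = p ^ d)) ∧
  Odd (Nat.card Gal(K/k)) ∧
  ∀ (B : Subgroup Gal(K/k)) (p q : ℕ), p.Prime → q.Prime → Nat.card B = p * q → IsCyclic B

/-- **The structure of a minimal counterexample to the Hasse-Weil conjecture for elliptic curves.**

Let `K/k` be an extension of number fields.

(1) `K/k` is reducible or has the structure `Shape`: if one of the conditions of `Shape` is not satisfied,
then the `L`-series over `K` of all elliptic curves `E` over `k` are, up to a factor that is meromorphic on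
`ℂ` and has no zeros for `Re s > 3/2`, products of integral powers of the `L`-series of quadratic twists of
`E` over extensions of `k` of degree less than `[K : k]`.

(2) Let `U` be a set, for example `U = ℂ`, and `E` an elliptic curve over `k`.  If the `L`-series of all
quadratic twists of `E` over all extensions of `k` of degree less than `[K : k]` have meromorphic
continuations to `U`, then `L(E/K, s)` has a meromorphic continuation to `U`, or `K/k` has the structure
`Shape`. -/
theorem result (k : Type) [Field k] [NumberField k] (K : Type) [Field K] [NumberField K]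
    [Algebra k K] :
    (Reducible k K ∨ Shape k K) ∧
    ∀ (U : Set ℂ) (E : WeierstrassCurve k) [E.IsElliptic],
      (∀ Z : Ext k, Module.finrank k Z.F < Module.finrank k K → ∀ D : 𝓞 Z.F, D ≠ 0 →
        Continuation U Z.F (QuadraticTwist (E.map (algebraMap k Z.F)) (D : Z.F))) →
      Continuation U K (E.map (algebraMap k K)) ∨ Shape k K := by
  classical
  have hshape : ¬ Pool.Agent.H453.MC.Fac (Module.finrank k K) (⟨K⟩ : Ext k) → Shape k K := by
    intro hK
    refine ⟨fun F M _ _ _ _ => ⟨fun m S c hS => ?_, fun p A hp hA hcomm hexp hAH =>
      Pool.Agent.H453.MC.large_orbit hK F M hp hA hcomm hexp hAH⟩, fun F M _ _ _ _ => ?_,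
      Pool.Agent.H453.MC.aut_case hK⟩
    · by_contra hcon
      push Not at hcon
      have hidx : (FixK F M).index = Module.finrank F K := Pool.Agent.H453.MC.index_fix F M
      refine Pool.Agent.H453.MC.no_rel hK F M ?_
      have e : Pool.Agent.R433.MD.fx (IsScalarTower.toAlgHom F K M).fieldRange.fixingSubgroup =
          ∑ i, c i • Pool.Agent.R433.MD.fx (S i) := by
        funext g
        rw [Finset.sum_apply]
        exact hcon g
      rw [e, ← hidx]
      exact Submodule.sum_mem _ fun i _ => Submodule.smul_mem _ _
        (Submodule.subset_span ⟨_, hS i, rfl⟩)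
    · have hn : Normal F M := IsNormalClosure.normal (F := F) (K := K) (L := M)
      have hg : IsGalois F M := ⟨⟩
      exact ⟨fun T hT h2 => Pool.Agent.H453.MC.two_radical hK F M hT h2,
        fun hs hF hmax => Pool.Agent.H453.MC.solvable_case hK F M hmax hF⟩
  constructor
  · by_cases hK : Pool.Agent.H453.MC.Fac (Module.finrank k K) (⟨K⟩ : Ext k)
    · left
      obtain ⟨ι, hι, Z, D, e, hZ, hL⟩ := hK
      refine ⟨ι, hι, Z, D, e, hZ, fun E hE V hV W hW => ?_⟩
      obtain ⟨R, hR, hRL⟩ := hL E hE V ((Pool.Agent.N19.BR.minimalModels_iff _ _).1 hV) W
        (fun i => (Pool.Agent.N19.BR.minimalModels_iff _ _).1 (hW i))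
      refine ⟨R, hR, fun s hs => ⟨(hRL s hs).1, ?_⟩⟩
      have h1 : LFunction V s = LL V s := Pool.Agent.N19.BR.prod_eq V s
      have h2 : ∀ i, LFunction (W i) s = LL (W i) s := fun i =>
        Pool.Agent.N19.BR.prod_eq (W i) s
      rw [h1, Finset.prod_congr rfl fun i _ => by rw [h2 i]]
      exact (hRL s hs).2
    · exact Or.inr (hshape hK)
  · intro U E hE hcont
    by_cases hK : Pool.Agent.H453.MC.Fac (Module.finrank k K) (⟨K⟩ : Ext k)
    · left
      obtain ⟨ι, hι, Z, D, e, hZ, hL⟩ := hK
      have hEK : (E.map (algebraMap k K)).IsElliptic := inferInstance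
      have hT : ∀ i, (Pool.Agent.H341R2.EC.twist (E.map (algebraMap k (Z i).F))
          (D i : (Z i).F)).IsElliptic := fun i =>
        Pool.Agent.H453.MC.twist_elliptic inferInstance (by
          rw [Ne, FaithfulSMul.algebraMap_eq_zero_iff]
          exact (hZ i).1)
      obtain ⟨V, hV⟩ := Pool.Agent.R433.MD.exists_minimal (E.map (algebraMap k K)) hEK
      choose W hW using fun i => Pool.Agent.R433.MD.exists_minimal _ (hT i)
      choose Λ hΛ using fun i => hcont (Z i) (hZ i).2 (D i) (hZ i).1
      have hΛ' := fun i => (Pool.Agent.N19.BR.continues_iff (hT i) (hW i)).1 (hΛ i)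
      obtain ⟨R, hR, hRL⟩ := hL E hE V hV W hW
      refine ⟨fun s => R s * ∏ i, Λ i s ^ e i,
        (Pool.Agent.N19.BR.continues_iff hEK hV).2 ⟨?_, fun s hs => ?_⟩⟩
      · have h1 : MeromorphicOn R U := fun x _ => hR x trivial
        exact h1.fun_mul (MeromorphicOn.fun_prod fun i _ => (hΛ' i).1.fun_zpow _)
      · have h2 : LL V s = R s * ∏ i, LL (W i) s ^ e i := (hRL s hs).2
        rw [pow_one, h2]
        congr 1
        refine Finset.prod_congr rfl fun i _ => ?_
        rw [(hΛ' i).2 s hs, pow_one]
    · exact Or.inr (hshape hK)

end Pool.Agent.Results.MP_0d9be2_nt.MinimalCounterexample
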