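import Pool.Agent.H201.Tw.Fin

/-!
# Meromorphic continuation of `L(E, s)` and of its twists is decided by additive twists with frequencies in a short interval

Let `E` be an elliptic curve over an arbitrary number field `K`, `L(E, s) = ∑ a_n n^{-s}` (Mathlib's
`WeierstrassCurve.LSeries`, with all bad primes). For a real number `α` let

`L(E, α, s) = ∑ a_n e(n α) n^{-s}`, `e(x) = exp (2 π i x)`.

**Theorem.** Let `β < γ` be real numbers.

(1) The following are equivalent: `L(E, α, s)` has a meromorphic continuation to `ℂ` for all rational `α` in the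
interval `(β, γ)`; `L(E, s)` and all twists `∑ a_n χ(n) n^{-s}` by Dirichlet characters have one; all series
`∑ a_n Φ(n) n^{-s}`, `Φ` periodic, have one. So if `L(E, s)`, or one of its twists, has no meromorphic continuation
then the set of the rational `α` for which `L(E, α, s)` has no meromorphic continuation is dense in `ℝ`: an interval
without such `α`, however short, decides.

(2) For `L(E, s)` itself finitely many `α` suffice: let `Q` be a positive integer with `φ(Q) < (γ - β) Q` (such `Q`
exist, and they can be taken divisible by any given integer, since `φ(Q) / Q` takes arbitrarily small values). If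
`L(E, k/Q, s)` continues for all integers `k` with `β < k/Q < γ` then `L(E, s)` and its twists by all characters of
conductor dividing `Q` continue, and conversely.

(3) Instead of the residues in an interval one can take any `φ(Q)` terms of an arithmetic progression with a difference
prime to `Q`. Moreover the additive twists for `α` and `-α` continue simultaneously.

All this holds with `ℂ` replaced by any half-plane `Re s > ρ`. The equivalences (1), (2), (3) hold for all Dirichlet
series with some half-plane of absolute convergence and with rational Euler factors at all primes.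

Idea of the proof: let `x_c(s) = ∑_{n ≡ c mod Q} a_n n^{-s}`. The additive twists with `φ(Q)` consecutive frequencies
and the classes `c` not prime to `Q` together generate everything (Vandermonde determinant). By the rationality of the
Euler factors at the `p ∣ Q` the `x_c`, `c` not prime to `Q`, are combinations of all `x_{c'}`, with coefficients which
are polynomials without constant term in the `p^{-s}`. So the vector of the `x_c` solves a linear system with
coefficients in the ring of Dirichlet polynomials in the `p^{-s}`, `p ∣ Q`, whose determinant tends to `1` as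
`Re s → ∞`.
-/

set_option autoImplicit false

namespace Pool.Agent.Results.MP_0d9be2_nt.TwistsInShortIntervals

open Complex NumberField

/-- `f` has a meromorphic continuation from some right half-plane to the half-plane `Re s > ρ`; for `ρ = ⊥ = -∞` this
is the whole plane. -/
def Continues (ρ : EReal) (f : ℂ → ℂ) : Prop :=
  ∃ F : ℂ → ℂ, MeromorphicOn F {s : ℂ | ρ < (s.re : EReal)} ∧
    ∃ σ : ℝ, ∀ s : ℂ, σ < s.re → F s = f s

/-- The additive twist `∑ a_n e(n α) n^{-s}`. -/
noncomputable def addTwist (a : ℕ → ℂ) (α : ℝ) (s : ℂ) : ℂ :=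
  LSeries (fun n => a n * Complex.exp (2 * Real.pi * I * n * α)) s

/-- The twist `∑ a_n χ(n) n^{-s}` by a Dirichlet character. -/
noncomputable def charTwist (a : ℕ → ℂ) {N : ℕ} (χ : DirichletCharacter ℂ N) (s : ℂ) : ℂ :=
  LSeries (fun n => a n * χ n) s

/-- The series `∑ a_n Φ(n) n^{-s}` with a periodic function `Φ`. -/
noncomputable def periodicTwist (a : ℕ → ℂ) {N : ℕ} (Φ : ZMod N → ℂ) (s : ℂ) : ℂ :=
  LSeries (fun n => a n * Φ n) s

/-- The coefficients of `L(E, s)`. -/
noncomputable def coef {K : Type} [Field K] [NumberField K] (E : WeierstrassCurve K) (n : ℕ) : ℂ :=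
  ((E.LFunction n : ℤ) : ℂ)

/-- `∑ a_n n^{-s}` converges absolutely in some half-plane, and for every prime `p` there are `m` and `c_j` such that
`(1 - ∑_{j < m} c_j p^{-(j+1)s}) ∑ a_n n^{-s}` is a series over `n` prime to `p` (rational Euler factors). -/
def RationalEulerFactors (a : ℕ → ℂ) : Prop :=
  (∃ σ : ℝ, ∀ s : ℂ, σ < s.re → LSeriesSummable a s) ∧
  ∀ p : ℕ, p.Prime → ∃ (m : ℕ) (c : ℕ → ℂ), ∀ n : ℕ, n ≠ 0 → p ∣ n →
    a n = ∑ j ∈ Finset.range m, if p ^ (j + 1) ∣ n then c j * a (n / p ^ (j + 1)) else 0

/-- All twists by Dirichlet characters whose level divides `Q` continue. -/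
def CharTwistsContinue (ρ : EReal) (a : ℕ → ℂ) (Q : ℕ) : Prop :=
  ∀ d : ℕ, d ∣ Q → ∀ [NeZero d] (χ : DirichletCharacter ℂ d), Continues ρ (charTwist a χ)

/-- The equivalences (1), (2), (3). -/
def Decided (ρ : EReal) (a : ℕ → ℂ) : Prop :=
  (∀ β γ : ℝ, β < γ → List.TFAE [
    ∀ α : ℚ, β < α → α < γ → Continues ρ (addTwist a α),
    ∀ (N : ℕ) [NeZero N] (χ : DirichletCharacter ℂ N), Continues ρ (charTwist a χ),
    ∀ (N : ℕ) [NeZero N] (Φ : ZMod N → ℂ), Continues ρ (periodicTwist a Φ)]) ∧
  (∀ (β γ : ℝ) (Q : ℕ) [NeZero Q], (Q.totient : ℝ) < (γ - β) * Q →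
    ((∀ k : ℤ, β < (k : ℝ) / Q → (k : ℝ) / Q < γ → Continues ρ (addTwist a ((k : ℝ) / Q))) ↔
      CharTwistsContinue ρ a Q)) ∧
  (∀ (Q : ℕ) [NeZero Q] (b d : ℤ), IsCoprime d (Q : ℤ) →
    ((∀ j : ℕ, j < Q.totient → Continues ρ (addTwist a (((b + j * d : ℤ) : ℝ) / Q))) ↔
      CharTwistsContinue ρ a Q))

/-- **Main theorem.** -/
theorem result :
    (∀ (ρ : EReal) (a : ℕ → ℂ), RationalEulerFactors a → Decided ρ a) ∧
    (∀ (N : ℕ) (δ : ℝ), N ≠ 0 → 0 < δ → ∃ Q : ℕ, N ∣ Q ∧ Q ≠ 0 ∧ (Q.totient : ℝ) < δ * Q) ∧
    ∀ (K : Type) [Field K] [NumberField K] (E : WeierstrassCurve K),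
      (∀ ρ : EReal, Decided ρ (coef E)) ∧
      (∀ (ρ : EReal) (α : ℝ), Continues ρ (addTwist (coef E) α) ↔ Continues ρ (addTwist (coef E) (-α))) ∧
      charTwist (coef E) (1 : DirichletCharacter ℂ 1) = E.LSeries := by
  have main : ∀ (ρ : EReal) (a : ℕ → ℂ), Pool.Agent.H201.Tw.RatEuler a → Decided ρ a := by
    intro ρ a h
    refine ⟨fun β γ hβγ => ?_, fun β γ Q _ hQ => ⟨fun hc d hd _ χ => ?_, fun hc k _ _ => ?_⟩,
      fun Q _ b d hd => ⟨fun hc d' hd' _ χ => ?_, fun hc k _ => ?_⟩⟩
    · tfae_have 1 → 3 := fun hc N _ Φ => Pool.Agent.H201.Tw.interval_all h hβγ hc Φ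
      tfae_have 3 → 2 := fun hc N _ χ => hc N fun x => χ x
      tfae_have 2 → 3 := fun hc N _ Φ =>
        Pool.Agent.H201.Tw.of_char h N (fun d _ _ χ => hc d χ) Φ
      tfae_have 3 → 1 := fun hc α _ _ => Pool.Agent.H201.Tw.rat_of_all hc α
      tfae_finish
    · exact Pool.Agent.H201.Tw.char_of_all (Pool.Agent.H201.Tw.interval_level h hQ hc) hd
        fun x => χ x
    · exact Pool.Agent.H201.Tw.add_of_all
        (Pool.Agent.H201.Tw.of_char h Q fun d hd _ χ => hc d hd χ) k
    · refine Pool.Agent.H201.Tw.char_of_all (Pool.Agent.H201.Tw.level h (S := ?_)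
        (Pool.Agent.H201.Tw.dec_prog (b := (b : ZMod Q)) (d := (d : ZMod Q)) ?_ ?_) ?_) hd'
        fun x => χ x
      · classical
        exact (Finset.range Q.totient).image fun j : ℕ => ((b + j * d : ℤ) : ZMod Q)
      · rwa [ZMod.coe_int_isUnit_iff_isCoprime, isCoprime_comm]
      · intro j hj
        rw [Finset.mem_image]
        exact ⟨j, Finset.mem_range.mpr hj, by push_cast; ring⟩
      · intro k hk
        rw [Finset.mem_image] at hk
        obtain ⟨j, hj, rfl⟩ := hk
        rw [Pool.Agent.H201.Tw.ech_add]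
        exact hc j (Finset.mem_range.mp hj)
    · exact Pool.Agent.H201.Tw.add_of_all
        (Pool.Agent.H201.Tw.of_char h Q fun d hd _ χ => hc d hd χ) _
  refine ⟨fun ρ a h => main ρ a ⟨h.1, h.2⟩,
    fun N δ hN hδ => Pool.Agent.H201.Hz.small_totient hN hδ,
    fun K _ _ E => ⟨fun ρ => main ρ _ (Pool.Agent.H201.Tw.ratEuler E), fun ρ => ?_, ?_⟩⟩
  · have key : ∀ α : ℝ, Continues ρ (addTwist (coef E) α) → Continues ρ (addTwist (coef E) (-α)) := by
      intro α h
      refine Pool.Agent.H201.Tw.Continues.congr (σ := 0) (Pool.Agent.H201.Tw.Continues.conj h)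
        fun s _ => ?_
      unfold addTwist
      rw [Pool.Agent.H201.Tw.LSeries_conj]
      refine congrArg (fun f => LSeries f s) ?_
      funext n
      have h1 : (starRingEnd ℂ) (coef E n) = coef E n := Pool.Agent.H201.Tw.coef_real E n
      rw [map_mul, h1, ← Complex.exp_conj]
      congr 2
      simp only [map_mul, Complex.conj_ofReal, Complex.conj_I, map_natCast, map_ofNat]
      push_cast
      ring
    intro α
    exact ⟨key α, fun h => by have := key _ h; rwa [neg_neg] at this⟩
  · funext s
    unfold charTwist WeierstrassCurve.LSeries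
    refine congrArg (fun f => LSeries f s) ?_
    funext n
    have h1 : ((n : ℕ) : ZMod 1) = 1 := Subsingleton.elim _ _
    rw [h1, map_one, mul_one]
    rfl

end Pool.Agent.Results.MP_0d9be2_nt.TwistsInShortIntervals
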